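import Pool.Agent.Y674.TR.Stm

/-! # Project TR: exactly one large root -/

set_option autoImplicit false

namespace Pool.Agent.Y532.TR

open Polynomial Pool.Agent.Y674.TR

lemma ev_F (φ ψ : ℤ[X]) (x : ℤ) (z : ℂ) : ev (F φ ψ x) z = ev φ z - (x : ℂ) * ev ψ z ^ 2 := by
  unfold ev F
  simp [Polynomial.map_sub, Polynomial.map_mul, Polynomial.map_pow]

lemma natDegree_F {e : ℕ} {φ ψ : ℤ[X]} {H : ℕ} (hD : Dat e φ ψ H) (x : ℤ) :
    (F φ ψ x).natDegree = 2 * e + 1 := by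
  have h1 : (C x * ψ ^ 2).natDegree ≤ 2 * e := by
    refine (natDegree_C_mul_le _ _).trans (natDegree_pow_le.trans ?_)
    rw [hD.degψ]
  unfold F
  rw [natDegree_sub_eq_left_of_natDegree_lt (by rw [hD.deg]; omega), hD.deg]

theorem one (h : SZ) : ONE := by
  intro e he
  refine ⟨2 * e + 2, 300 * 12 ^ (2 * e + 2), ?_⟩
  intro φ ψ H hD x hx ι _ s hs
  classical
  obtain ⟨hsz1, hsz2⟩ := h e he φ ψ H hD
  have hH : (1 : ℝ) ≤ H := by exact_mod_cast hD.one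
  have hH0 : (0 : ℝ) < H := by linarith
  obtain ⟨z, hz⟩ : ∃ z : ℂ, z = ((8 * (H : ℝ) : ℝ) : ℂ) := ⟨_, rfl⟩
  have hzn : ‖z‖ = 8 * (H : ℝ) := by
    rw [hz, Complex.norm_real, Real.norm_eq_abs, abs_of_pos (by positivity)]
  have hcard : Fintype.card ι = 2 * e + 1 := by
    have h1 : ((F φ ψ x).map (Int.castRingHom ℂ)).natDegree = 2 * e + 1 := by
      rw [natDegree_map_eq_of_injective (RingHom.injective_int (Int.castRingHom ℂ)),
        natDegree_F hD x]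
    rw [hs, natDegree_finsetProd_X_sub_C_eq_card] at h1
    simpa using h1
  have hroot : ∀ i, ev (F φ ψ x) (s i) = 0 := by
    intro i
    unfold ev
    rw [hs, eval_prod]
    apply Finset.prod_eq_zero (Finset.mem_univ i)
    simp
  have hprod : ‖ev (F φ ψ x) z‖ = ∏ i, ‖z - s i‖ := by
    unfold ev
    rw [hs, eval_prod, norm_prod]
    simp
  obtain ⟨p1, p2, p3, p4⟩ := hsz1 z (by rw [hzn]; linarith)
  rw [hzn] at p1 p2 p3 p4
  obtain ⟨X0, hX0⟩ : ∃ X0 : ℝ, X0 = |(x : ℝ)| := ⟨_, rfl⟩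
  have hxn : ‖(x : ℂ)‖ = X0 := by
    rw [hX0]
    have : (x : ℂ) = ((x : ℝ) : ℂ) := by push_cast; rfl
    rw [this, Complex.norm_real, Real.norm_eq_abs]
  rw [← hX0] at hx
  push_cast at hx
  obtain ⟨B, hB⟩ : ∃ B : ℝ, B = (12 * (H : ℝ)) ^ (2 * e + 2) := ⟨_, rfl⟩
  have hxB : 300 * B ≤ X0 := by
    rw [hB, mul_pow]
    linarith
  have h12 : (12 : ℝ) ≤ 12 * (H : ℝ) := by linarith
  have hB12 : 12 * (H : ℝ) ≤ B := by
    rw [hB]
    exact le_self_pow₀ (by linarith) (by omega)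
  have hBn : (12 * (H : ℝ)) ^ (2 * e + 1) ≤ B := by
    rw [hB]
    exact pow_le_pow_right₀ (by linarith) (by omega)
  have h8B : (8 * (H : ℝ)) ^ (2 * e + 2) ≤ B := by
    rw [hB]
    exact pow_le_pow_left₀ (by positivity) (by linarith) _
  have h8n : (8 * (H : ℝ)) ^ (2 * e + 1) ≤ (12 * (H : ℝ)) ^ (2 * e + 1) :=
    pow_le_pow_left₀ (by positivity) (by linarith) _
  have h82e : 1 ≤ (8 * (H : ℝ)) ^ (2 * e) := one_le_pow₀ (by linarith)
  have hX1 : 1 ≤ X0 := by linarith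
  have hψ : ‖ev ψ z‖ ^ 2 ≥ (8 * (H : ℝ)) ^ (2 * e) / 4 := by
    calc ‖ev ψ z‖ ^ 2 ≥ ((8 * (H : ℝ)) ^ e / 2) ^ 2 := pow_le_pow_left₀ (by positivity) p1 2
      _ = (8 * (H : ℝ)) ^ (2 * e) / 4 := by
        rw [div_pow, ← pow_mul, mul_comm e 2]
        norm_num
  have hψ' : ‖ev ψ z‖ ^ 2 ≤ 4 * (H : ℝ) ^ 2 * (8 * (H : ℝ)) ^ (2 * e) := by
    calc ‖ev ψ z‖ ^ 2 ≤ (2 * H * (8 * (H : ℝ)) ^ e) ^ 2 :=
          pow_le_pow_left₀ (norm_nonneg _) p2 2
      _ = 4 * (H : ℝ) ^ 2 * (8 * (H : ℝ)) ^ (2 * e) := by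
        rw [mul_pow, mul_pow, ← pow_mul, mul_comm e 2]
        norm_num
  have hlarge : ∀ i, ¬ ‖s i‖ < 4 * (H : ℝ) → X0 / 6 ≤ ‖s i‖ := by
    intro i hi
    rcases hsz2 x (s i) (hroot i) with h1 | h1
    · exact absurd h1.1 hi
    · rw [← hX0] at h1
      linarith [h1.2.1]
  -- existence
  have hex : ∃ i₀, 4 * (H : ℝ) ≤ ‖s i₀‖ := by
    by_contra hcon
    push Not at hcon
    have h1 : ∏ i, ‖z - s i‖ ≤ (12 * (H : ℝ)) ^ (2 * e + 1) := by
      calc ∏ i, ‖z - s i‖ ≤ ∏ _i : ι, (12 * (H : ℝ)) := by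
            refine Finset.prod_le_prod (fun i _ => norm_nonneg _) fun i _ => ?_
            have := norm_sub_le z (s i)
            have := hcon i
            linarith
        _ = (12 * (H : ℝ)) ^ (2 * e + 1) := by
            rw [Finset.prod_const, Finset.card_univ, hcard]
    rw [← hprod, ev_F] at h1
    have h2 : ‖(x : ℂ) * ev ψ z ^ 2‖ ≤ ‖ev φ z - (x : ℂ) * ev ψ z ^ 2‖ + ‖ev φ z‖ := by
      calc ‖(x : ℂ) * ev ψ z ^ 2‖ = ‖ev φ z - (ev φ z - (x : ℂ) * ev ψ z ^ 2)‖ := by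
            congr 1
            ring
        _ ≤ ‖ev φ z‖ + ‖ev φ z - (x : ℂ) * ev ψ z ^ 2‖ := norm_sub_le _ _
        _ = _ := add_comm _ _
    rw [norm_mul, norm_pow, hxn] at h2
    have h3 : X0 * (1 / 4) ≤ X0 * ‖ev ψ z‖ ^ 2 := by
      apply mul_le_mul_of_nonneg_left _ (by linarith)
      linarith
    linarith
  obtain ⟨i₀, hi₀⟩ := hex
  refine ⟨i₀, hi₀, fun i₁ hne => ?_⟩
  by_contra hi₁
  have hs0 := hlarge i₀ (not_lt.2 hi₀)
  have hs1 := hlarge i₁ hi₁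
  have hfac : ∀ i, 1 ≤ ‖z - s i‖ := by
    intro i
    by_cases hi : ‖s i‖ < 4 * (H : ℝ)
    · have := norm_sub_norm_le z (s i)
      rw [hzn] at this
      linarith
    · have h1 := hlarge i hi
      have h2 := norm_sub_norm_le (s i) z
      rw [hzn, norm_sub_rev] at h2
      linarith
  have hbig : ∀ i, X0 / 6 ≤ ‖s i‖ → X0 / 12 ≤ ‖z - s i‖ := by
    intro i hi
    have h2 := norm_sub_norm_le (s i) z
    rw [hzn, norm_sub_rev] at h2
    linarith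
  have hlow : X0 / 12 * (X0 / 12) ≤ ∏ i, ‖z - s i‖ := by
    rw [← Finset.mul_prod_erase _ _ (Finset.mem_univ i₀),
      ← Finset.mul_prod_erase _ _ (Finset.mem_erase.2 ⟨hne, Finset.mem_univ i₁⟩)]
    have h1 : 1 ≤ ∏ i ∈ (Finset.univ.erase i₀).erase i₁, ‖z - s i‖ := by
      have h2 : ∏ _i ∈ (Finset.univ.erase i₀).erase i₁, (1 : ℝ) ≤
          ∏ i ∈ (Finset.univ.erase i₀).erase i₁, ‖z - s i‖ :=
        Finset.prod_le_prod (fun i _ => zero_le_one) fun i _ => hfac i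
      rwa [Finset.prod_const_one] at h2
    have b0 := hbig i₀ hs0
    have b1 := hbig i₁ hs1
    have hp : 0 ≤ X0 / 12 := by linarith
    calc X0 / 12 * (X0 / 12) ≤ ‖z - s i₀‖ * ‖z - s i₁‖ := mul_le_mul b0 b1 hp (norm_nonneg _)
      _ = ‖z - s i₀‖ * (‖z - s i₁‖ * 1) := by ring
      _ ≤ _ := by gcongr
  rw [← hprod, ev_F] at hlow
  have hup : ‖ev φ z - (x : ℂ) * ev ψ z ^ 2‖ ≤ 2 * B * X0 := by
    refine (norm_sub_le _ _).trans ?_
    rw [norm_mul, norm_pow, hxn]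
    have h1 : ‖ev φ z‖ ≤ B := by
      have h2 : 3 / 2 * (8 * (H : ℝ)) ^ (2 * e + 1) ≤ (8 * (H : ℝ)) ^ (2 * e + 2) := by
        have h3 : (8 * (H : ℝ)) ^ (2 * e + 2) = (8 * (H : ℝ)) * (8 * (H : ℝ)) ^ (2 * e + 1) := by
          ring
        rw [h3]
        apply mul_le_mul_of_nonneg_right _ (by positivity)
        linarith
      linarith
    have h2 : ‖ev ψ z‖ ^ 2 ≤ B := by
      refine hψ'.trans (le_trans ?_ h8B)
      have h3 : (8 * (H : ℝ)) ^ (2 * e + 2) = 64 * (H : ℝ) ^ 2 * (8 * (H : ℝ)) ^ (2 * e) := by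
        ring
      rw [h3]
      apply mul_le_mul_of_nonneg_right _ (by positivity)
      nlinarith
    have hB0 : 0 ≤ B := by linarith
    calc ‖ev φ z‖ + X0 * ‖ev ψ z‖ ^ 2 ≤ B * X0 + X0 * B := by
          apply add_le_add
          · calc ‖ev φ z‖ ≤ B * 1 := by linarith
              _ ≤ B * X0 := by gcongr
          · gcongr
      _ = 2 * B * X0 := by ring
  have hfin := hlow.trans hup
  nlinarith

end Pool.Agent.Y532.TR
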